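import Mathlib

set_option autoImplicit false

/-!
# The `π`-adic complexity of finite words over `{0, ..., N - 1}`
-/

namespace Pool.Agent.N590.PA

/-- The `π`-adic number `∑ a_i π^i` of the sequence `a` equals `f / g`, where `f, g ∈ R` and `g` is
invertible modulo `π`. (Equality of `g * ∑ a_i π^i` and `f` in the `π`-adic completion of `R` means
that they are congruent modulo `π^k` for every `k`.) -/
def IsFraction {R : Type*} [CommRing R] (p : R) (N : ℕ) (a : ℕ → Fin N) (f g : R) : Prop :=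
  (∃ h : R, p ∣ g * h - 1) ∧
    ∀ k : ℕ, p ^ k ∣ g * (∑ i ∈ Finset.range k, ((a i : ℕ) : R) * p ^ i) - f

/-- The `π`-adic complexity of the word `w` of length `n`, for the size function `φ`: the minimum of
`max (φ f) (φ g)` over all infinite sequences `a` with `a_i = w_i` for `i < n` and all `f, g` such
that the `π`-adic number of `a` is `f / g`. -/
noncomputable def complexity {R : Type*} [CommRing R] (p : R) (N : ℕ) (φ : R → ℝ) (n : ℕ)
    (w : Fin n → Fin N) : ℝ :=
  sInf {x : ℝ | ∃ (a : ℕ → Fin N) (f g : R), (∀ i : Fin n, a i = w i) ∧ IsFraction p N a f g ∧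
    x = max (φ f) (φ g)}

/-- The average of the `π`-adic complexity over all `N ^ n` words of length `n`. -/
noncomputable def average {R : Type*} [CommRing R] (p : R) (N : ℕ) (φ : R → ℝ) (n : ℕ) : ℝ :=
  (∑ w : Fin n → Fin N, complexity p N φ n w) / (N : ℝ) ^ n

/-- The size in case (i), `π ^ 2 = -N`: `φ(u + v π) = log_N (u² + N v²)`, where `b = (1, π)`. -/
noncomputable def sizeI {R : Type*} [CommRing R] (N : ℕ) (b : Module.Basis (Fin 2) ℤ R) (x : R) :
    ℝ :=
  Real.logb N ((b.repr x 0 : ℝ) ^ 2 + N * (b.repr x 1 : ℝ) ^ 2)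

/-- The size in case (ii), `π ^ d = N`: `φ(∑ u_i π^i) = max (d log_N |u_i| + i)` over the `i` with
`u_i ≠ 0`, where `b = (1, π, ..., π^(d-1))`. -/
noncomputable def sizeII {R : Type*} [CommRing R] (N : ℕ) {d : ℕ} (b : Module.Basis (Fin d) ℤ R)
    (x : R) : ℝ :=
  sSup {y : ℝ | ∃ i : Fin d, b.repr x i ≠ 0 ∧ y = d * Real.logb N |(b.repr x i : ℝ)| + i}

end Pool.Agent.N590.PA
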