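import Mathlib
import Pool.Agent.N590.PA.Defs

set_option autoImplicit false

/-!
# Expansions with respect to `π`
-/

namespace Pool.Agent.N590.PA

open Finset

/-- the properties of `π` which are used -/
structure Good {R : Type*} [CommRing R] (p : R) (N : ℕ) : Prop where
  two_le : 2 ≤ N
  ne_zero : p ≠ 0
  dvd_iff : ∀ m : ℤ, p ∣ (m : R) ↔ (N : ℤ) ∣ m
  digit : ∀ x : R, ∃ c : Fin N, p ∣ x - ((c : ℕ) : R)

variable {R : Type*} [CommRing R]

theorem good_of_basis [IsDomain R] {d : ℕ} (b : Module.Basis (Fin d) ℤ R) (p : R) (N : ℕ)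
    (hN : 2 ≤ N) (hd : 1 ≤ d) (hb : ∀ i : Fin d, b i = p ^ (i : ℕ)) (M : ℤ) (hM : M.natAbs = N)
    (hp : p ^ d = (M : R)) : Good p N := by
  obtain ⟨e, rfl⟩ : ∃ e, d = e + 1 := ⟨d - 1, by omega⟩
  have hchar : ∀ m : ℤ, b.repr (m : R) 0 = m := by
    intro m
    have h1 : (m : R) = m • b 0 := by rw [hb, zsmul_eq_mul]; simp
    rw [h1, map_zsmul, Finsupp.smul_apply, b.repr_self, Finsupp.single_eq_same]
    simp
  have hinj : ∀ m : ℤ, (m : R) = 0 → m = 0 := by
    intro m hm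
    have := hchar m
    rw [hm] at this
    simpa using this.symm
  have hM0 : M ≠ 0 := by rintro rfl; simp at hM; omega
  have hp0 : p ≠ 0 := by
    rintro rfl
    rw [zero_pow (by omega)] at hp
    exact hM0 (hinj M hp.symm)
  have hdvdN : (N : ℤ) ∣ M ∧ M ∣ (N : ℤ) := by
    constructor
    · rw [← hM]; exact Int.natAbs_dvd.mpr dvd_rfl
    · rw [← hM]; exact Int.dvd_natAbs.mpr dvd_rfl
  have hpM : p ∣ (M : R) := by
    rw [← hp]; exact dvd_pow_self p (by omega)
  have hdvd : ∀ m : ℤ, (N : ℤ) ∣ m → p ∣ (m : R) := by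
    intro m hm
    obtain ⟨k, hk⟩ := hdvdN.2.trans hm
    rw [hk]; push_cast
    exact Dvd.dvd.mul_right hpM _
  refine ⟨hN, hp0, fun m => ⟨?_, hdvd m⟩, ?_⟩
  · rintro ⟨y, hy⟩
    have h1 : p * y = (∑ i : Fin e, (b.repr y i.castSucc) • b i.succ) +
        (M * b.repr y (Fin.last e)) • b 0 := by
      conv_lhs => rw [← b.sum_repr y, Fin.sum_univ_castSucc, mul_add, mul_sum]
      congr 1
      · refine sum_congr rfl fun i _ => ?_
        rw [hb, hb, zsmul_eq_mul, zsmul_eq_mul, Fin.val_castSucc, Fin.val_succ, pow_succ]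
        ring
      · rw [hb, hb, zsmul_eq_mul, zsmul_eq_mul, Fin.val_last]
        push_cast
        rw [← hp]
        simp only [Fin.coe_ofNat_eq_mod, Nat.zero_mod, pow_zero]
        rw [pow_succ]; ring
    have h2 := hchar m
    rw [hy, h1, map_add, map_sum, Finsupp.add_apply, Finsupp.finsetSum_apply] at h2
    have h3 : ∀ i : Fin e, (b.repr (b.repr y i.castSucc • b i.succ)) 0 = 0 := by
      intro i
      rw [map_zsmul, Finsupp.smul_apply, b.repr_self, Finsupp.single_eq_of_ne, smul_zero]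
      exact (Fin.succ_ne_zero i).symm
    rw [sum_congr rfl fun i _ => h3 i, sum_const_zero, zero_add, map_zsmul, Finsupp.smul_apply,
      b.repr_self, Finsupp.single_eq_same, smul_eq_mul, mul_one] at h2
    rw [← h2]
    exact Dvd.dvd.mul_right hdvdN.1 _
  · intro x
    have hN0 : (N : ℤ) ≠ 0 := by omega
    have h4 := Int.emod_nonneg (b.repr x 0) hN0
    have h5 := Int.emod_lt_of_pos (b.repr x 0) (by omega : (0 : ℤ) < N)
    obtain ⟨c, hc⟩ : ∃ c : Fin N, ((c : ℕ) : ℤ) = b.repr x 0 % (N : ℤ) :=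
      ⟨⟨(b.repr x 0 % (N : ℤ)).toNat, by omega⟩, Int.toNat_of_nonneg h4⟩
    refine ⟨c, ?_⟩
    have h6 : ((c : ℕ) : R) = ((b.repr x 0 % (N : ℤ) : ℤ) : R) := by
      rw [← hc]; simp
    rw [h6]
    have hx : x = b.repr x 0 • b 0 + ∑ i : Fin e, b.repr x i.succ • b i.succ := by
      conv_lhs => rw [← b.sum_repr x, Fin.sum_univ_succ]
    have hb0 : b 0 = 1 := by rw [hb]; simp
    rw [hb0, zsmul_eq_mul, mul_one] at hx
    have h7 : x - ((b.repr x 0 % (N : ℤ) : ℤ) : R) =
        ((b.repr x 0 - b.repr x 0 % (N : ℤ) : ℤ) : R) + ∑ i : Fin e, b.repr x i.succ • b i.succ := by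
      push_cast
      linear_combination hx
    rw [h7]
    refine dvd_add (hdvd _ Int.dvd_self_sub_emod) (dvd_sum fun i _ => ?_)
    rw [hb, zsmul_eq_mul, Fin.val_succ, pow_succ]
    exact Dvd.dvd.mul_left (dvd_mul_left _ _) _

variable {p : R} {N : ℕ}

theorem exists_seq (hG : Good p N) (f g : R) (hg : ∃ h : R, p ∣ g * h - 1) :
    ∃ a : ℕ → Fin N, ∀ k : ℕ, p ^ k ∣ g * (∑ i ∈ range k, ((a i : ℕ) : R) * p ^ i) - f := by
  obtain ⟨h, hh⟩ := hg
  have hstep : ∀ c : R, ∃ (a : Fin N) (c' : R), c = g * ((a : ℕ) : R) + p * c' := by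
    intro c
    obtain ⟨a, ha⟩ := hG.digit (h * c)
    have h1 : p ∣ c - g * ((a : ℕ) : R) := by
      have e : c - g * ((a : ℕ) : R) = g * (h * c - ((a : ℕ) : R)) - (g * h - 1) * c := by ring
      rw [e]
      exact dvd_sub (Dvd.dvd.mul_left ha g) (Dvd.dvd.mul_right hh c)
    obtain ⟨c', hc'⟩ := h1
    exact ⟨a, c', by rw [← hc']; ring⟩
  choose dig nxt hdn using hstep
  let car : ℕ → R := fun k => nxt^[k] f
  have hcar : ∀ k, car (k + 1) = nxt (car k) := fun k => Function.iterate_succ_apply' nxt k f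
  refine ⟨fun k => dig (car k), ?_⟩
  have main : ∀ k : ℕ, f = g * (∑ i ∈ range k, (((dig (car i) : Fin N) : ℕ) : R) * p ^ i) +
      p ^ k * car k := by
    intro k
    induction k with
    | zero => simp [car]
    | succ k ih =>
      rw [sum_range_succ, pow_succ, mul_assoc, hcar]
      have h1 := hdn (car k)
      calc f = g * (∑ i ∈ range k, (((dig (car i) : Fin N) : ℕ) : R) * p ^ i) +
          p ^ k * car k := ih
        _ = g * (∑ i ∈ range k, (((dig (car i) : Fin N) : ℕ) : R) * p ^ i) +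
          p ^ k * (g * ((dig (car k) : ℕ) : R) + p * nxt (car k)) := by rw [← h1]
        _ = _ := by ring
  intro k
  refine ⟨-car k, ?_⟩
  linear_combination -(main k)

theorem seq_unique [IsDomain R] (hG : Good p N) (n : ℕ) : ∀ a a' : ℕ → Fin N,
    p ^ n ∣ (∑ i ∈ range n, ((a i : ℕ) : R) * p ^ i) - ∑ i ∈ range n, ((a' i : ℕ) : R) * p ^ i →
      ∀ i < n, a i = a' i := by
  induction n with
  | zero => intro a a' _ i hi; omega
  | succ n ih =>
    intro a a' h
    have e : ∀ a : ℕ → Fin N, ∑ i ∈ range (n + 1), ((a i : ℕ) : R) * p ^ i =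
        ((a 0 : ℕ) : R) + p * ∑ i ∈ range n, ((a (i + 1) : ℕ) : R) * p ^ i := by
      intro a
      rw [sum_range_succ', add_comm, mul_sum]
      congr 1
      · simp
      · refine sum_congr rfl fun i _ => ?_
        rw [pow_succ]; ring
    rw [e, e] at h
    have h0 : a 0 = a' 0 := by
      have h1 : p ∣ (((a 0 : ℕ) : ℤ) - ((a' 0 : ℕ) : ℤ) : ℤ) := by
        have h2 : p ∣ p ^ (n + 1) := dvd_pow_self p (by omega)
        have h3 := h2.trans h
        have e2 : ((((a 0 : ℕ) : ℤ) - ((a' 0 : ℕ) : ℤ) : ℤ) : R) =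
            (((a 0 : ℕ) : R) + p * ∑ i ∈ range n, ((a (i + 1) : ℕ) : R) * p ^ i -
              (((a' 0 : ℕ) : R) + p * ∑ i ∈ range n, ((a' (i + 1) : ℕ) : R) * p ^ i)) -
            p * ((∑ i ∈ range n, ((a (i + 1) : ℕ) : R) * p ^ i) -
              ∑ i ∈ range n, ((a' (i + 1) : ℕ) : R) * p ^ i) := by
          push_cast; ring
        rw [e2]
        exact dvd_sub h3 (dvd_mul_right _ _)
      rw [hG.dvd_iff] at h1
      have h4 := (a 0).isLt
      have h5 := (a' 0).isLt
      apply Fin.ext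
      obtain ⟨k, hk⟩ := h1
      have hk0 : k = 0 := by
        by_contra hk0
        rcases lt_or_gt_of_ne hk0 with h6 | h6
        · have : (N : ℤ) * k ≤ -N := by nlinarith
          omega
        · have : (N : ℤ) * k ≥ N := by nlinarith
          omega
      rw [hk0, mul_zero] at hk
      omega
    have h1 : p ^ n ∣ (∑ i ∈ range n, ((a (i + 1) : ℕ) : R) * p ^ i) -
        ∑ i ∈ range n, ((a' (i + 1) : ℕ) : R) * p ^ i := by
      rw [h0, pow_succ'] at h
      have e2 : ((a' 0 : ℕ) : R) + p * ∑ i ∈ range n, ((a (i + 1) : ℕ) : R) * p ^ i -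
          (((a' 0 : ℕ) : R) + p * ∑ i ∈ range n, ((a' (i + 1) : ℕ) : R) * p ^ i) =
          p * ((∑ i ∈ range n, ((a (i + 1) : ℕ) : R) * p ^ i) -
            ∑ i ∈ range n, ((a' (i + 1) : ℕ) : R) * p ^ i) := by ring
      rw [e2] at h
      exact (mul_dvd_mul_iff_left hG.ne_zero).mp h
    have h2 := ih (fun i => a (i + 1)) (fun i => a' (i + 1)) h1
    intro i hi
    rcases Nat.eq_zero_or_pos i with rfl | hi0
    · exact h0
    · have := h2 (i - 1) (by omega)
      rwa [Nat.sub_add_cancel hi0] at this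

/-- the element with digits `w` -/
def val (p : R) (N n : ℕ) (w : Fin n → Fin N) : R := ∑ i : Fin n, ((w i : ℕ) : R) * p ^ (i : ℕ)

theorem val_eq (p : R) (N n : ℕ) (a : ℕ → Fin N) :
    val p N n (fun i => a i) = ∑ i ∈ range n, ((a i : ℕ) : R) * p ^ i :=
  Fin.sum_univ_eq_sum_range (fun i => ((a i : ℕ) : R) * p ^ i) n

theorem digits_eq [IsDomain R] (hG : Good p N) (n : ℕ) (a : ℕ → Fin N) (w : Fin n → Fin N)
    (h : p ^ n ∣ (∑ i ∈ range n, ((a i : ℕ) : R) * p ^ i) - val p N n w) :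
    ∀ i : Fin n, a i = w i := by
  let a' : ℕ → Fin N := fun i => if h : i < n then w ⟨i, h⟩ else a i
  have h1 : val p N n w = ∑ i ∈ range n, ((a' i : ℕ) : R) * p ^ i := by
    rw [← val_eq]
    congr 1
    funext i
    simp [a']
  rw [h1] at h
  have h2 := seq_unique hG n a a' h
  intro i
  rw [h2 i i.isLt]
  simp [a']

theorem val_injective [IsDomain R] (hG : Good p N) (n : ℕ) (w w' : Fin n → Fin N)
    (h : p ^ n ∣ val p N n w - val p N n w') : w = w' := by
  have hN : 0 < N := by have := hG.two_le; omega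
  let a : ℕ → Fin N := fun i => if h : i < n then w ⟨i, h⟩ else ⟨0, hN⟩
  have h1 : val p N n w = ∑ i ∈ range n, ((a i : ℕ) : R) * p ^ i := by
    rw [← val_eq]
    congr 1
    funext i
    simp [a]
  rw [h1] at h
  have h2 := digits_eq hG n a w' h
  funext i
  rw [← h2 i]
  simp [a]

theorem val_surjective (hG : Good p N) (n : ℕ) (x : R) :
    ∃ w : Fin n → Fin N, p ^ n ∣ x - val p N n w := by
  obtain ⟨a, ha⟩ := exists_seq hG x 1 ⟨1, by simp⟩
  refine ⟨fun i => a i, ?_⟩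
  have := ha n
  rw [one_mul] at this
  rw [val_eq, ← dvd_neg, neg_sub]
  exact this

/-- a unit modulo `p` is a unit modulo `p ^ n` -/
theorem unit_pow (g h : R) (hh : p ∣ g * h - 1) (n : ℕ) : IsCoprime (p ^ n) g := by
  obtain ⟨c, hc⟩ := hh
  have : IsCoprime p g := ⟨-c, h, by linear_combination hc⟩
  exact this.pow_left

theorem complexity_le [IsDomain R] (hG : Good p N) (φ : R → ℝ) (hφ : ∀ x, 0 ≤ φ x) (n : ℕ)
    (w : Fin n → Fin N) (f g : R) (hg : ∃ h : R, p ∣ g * h - 1)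
    (hd : p ^ n ∣ g * val p N n w - f) : complexity p N φ n w ≤ max (φ f) (φ g) := by
  obtain ⟨a, ha⟩ := exists_seq hG f g hg
  refine csInf_le ⟨0, ?_⟩ ⟨a, f, g, ?_, ⟨hg, ha⟩, rfl⟩
  · rintro x ⟨a, f, g, -, -, rfl⟩
    exact le_max_of_le_left (hφ f)
  · apply digits_eq hG
    obtain ⟨h, hh⟩ := hg
    have h1 : p ^ n ∣ g * ((∑ i ∈ range n, ((a i : ℕ) : R) * p ^ i) - val p N n w) := by
      have e : g * ((∑ i ∈ range n, ((a i : ℕ) : R) * p ^ i) - val p N n w) =
        (g * (∑ i ∈ range n, ((a i : ℕ) : R) * p ^ i) - f) - (g * val p N n w - f) := by ring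
      rw [e]
      exact dvd_sub (ha n) hd
    exact (unit_pow g h hh n).dvd_of_dvd_mul_left h1

theorem le_complexity [IsDomain R] (hG : Good p N) (φ : R → ℝ) (n : ℕ)
    (w : Fin n → Fin N) (c : ℝ)
    (hc : ∀ f g : R, (∃ h : R, p ∣ g * h - 1) → p ^ n ∣ g * val p N n w - f →
      c ≤ max (φ f) (φ g)) : c ≤ complexity p N φ n w := by
  refine le_csInf ?_ ?_
  · obtain ⟨a, ha⟩ := exists_seq hG (val p N n w) 1 ⟨1, by simp⟩
    refine ⟨_, a, val p N n w, 1, ?_, ⟨⟨1, by simp⟩, ha⟩, rfl⟩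
    apply digits_eq hG
    have := ha n
    rwa [one_mul] at this
  · rintro x ⟨a, f, g, haw, hfr, rfl⟩
    refine hc f g hfr.1 ?_
    have h2 : val p N n w = val p N n (fun i => a i) := by
      congr 1
      funext i
      exact (haw i).symm
    rw [h2, val_eq]
    exact hfr.2 n

end Pool.Agent.N590.PA
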