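import Mathlib

set_option autoImplicit false

namespace Pool.Agent.N590.PA

theorem card_ker_eq {G : Type*} [AddCommGroup G] [Finite G] (μ : G →+ G) :
    Nat.card μ.ker = Nat.card (G ⧸ μ.range) := by
  have h1 : Nat.card G = Nat.card (G ⧸ μ.ker) * Nat.card μ.ker :=
    AddSubgroup.card_eq_card_quotient_mul_card_addSubgroup μ.ker
  have h2 : Nat.card G = Nat.card (G ⧸ μ.range) * Nat.card μ.range :=
    AddSubgroup.card_eq_card_quotient_mul_card_addSubgroup μ.range
  have h3 : Nat.card (G ⧸ μ.ker) = Nat.card μ.range :=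
    Nat.card_congr (QuotientAddGroup.quotientKerEquivRange μ).toEquiv
  rw [h3] at h1
  have h4 : 0 < Nat.card μ.range := Nat.card_pos
  rw [h1, mul_comm] at h2
  exact Nat.eq_of_mul_eq_mul_right h4 h2

/-- If `T` meets every coset of the image of `μ`, then the preimage of `S` has at most as many
elements as `S + T`. -/
theorem card_preimage_le {G : Type*} [AddCommGroup G] [Finite G] (μ : G →+ G) (S T P : Set G)
    (hT : ∀ x, ∃ t ∈ T, x - t ∈ μ.range) (hP : ∀ s ∈ S, ∀ t ∈ T, s + t ∈ P) :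
    {a | μ a ∈ S}.ncard ≤ P.ncard := by
  classical
  -- first injection
  have h1 : ∀ s : {s // s ∈ S ∧ s ∈ μ.range}, ∃ a, μ a = s := fun s => s.2.2
  choose sec hsec using h1
  let f1 : {a // μ a ∈ S} → {s // s ∈ S ∧ s ∈ μ.range} × μ.ker := fun a =>
    (⟨μ a.1, a.2, a.1, rfl⟩, ⟨a.1 - sec ⟨μ a.1, a.2, a.1, rfl⟩, by
      rw [AddMonoidHom.mem_ker, map_sub, hsec, sub_self]⟩)
  have hf1 : Function.Injective f1 := by
    intro a a' h
    simp only [f1, Prod.mk.injEq, Subtype.mk.injEq] at h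
    obtain ⟨h1, h2⟩ := h
    apply Subtype.ext
    have h3 : sec ⟨μ a.1, a.2, a.1, rfl⟩ = sec ⟨μ a'.1, a'.2, a'.1, rfl⟩ := by
      congr 1
      exact Subtype.ext h1
    rw [h3] at h2
    exact sub_left_injective h2
  -- second injection
  have h2 : ∀ c : G ⧸ μ.range, ∃ t ∈ T, (t : G ⧸ μ.range) = c := by
    intro c
    obtain ⟨x, rfl⟩ := QuotientAddGroup.mk_surjective c
    obtain ⟨t, ht, hx⟩ := hT x
    refine ⟨t, ht, ?_⟩
    rw [QuotientAddGroup.eq]
    have : -t + x = x - t := by abel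
    rw [this]; exact hx
  choose rep hrep1 hrep2 using h2
  let f2 : {s // s ∈ S ∧ s ∈ μ.range} × (G ⧸ μ.range) → P := fun p =>
    ⟨p.1.1 + rep p.2, hP _ p.1.2.1 _ (hrep1 _)⟩
  have hf2 : Function.Injective f2 := by
    rintro ⟨s, c⟩ ⟨s', c'⟩ h
    simp only [f2, Subtype.mk.injEq] at h
    have h3 : c = c' := by
      rw [← hrep2 c, ← hrep2 c', QuotientAddGroup.eq]
      have : -rep c + rep c' = s.1 - s'.1 := by
        have : rep c' = s.1 + rep c - s'.1 := by rw [h]; abel
        rw [this]; abel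
      rw [this]
      exact sub_mem s.2.2 s'.2.2
    subst h3
    have h4 : s = s' := Subtype.ext (add_right_cancel h)
    rw [h4]
  have hc1 := Nat.card_le_card_of_injective f1 hf1
  have hc2 := Nat.card_le_card_of_injective f2 hf2
  rw [Nat.card_prod] at hc1 hc2
  rw [card_ker_eq] at hc1
  exact hc1.trans hc2

end Pool.Agent.N590.PA
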