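import Mathlib

set_option autoImplicit false

/-!
# A crude form of Minkowski's second theorem

`ψ : ℤ^ι → G` is a homomorphism into a group with `D` elements; its kernel `L` has no nonzero
vector shorter than `μ` (sup norm). Then the vectors of `L` of length at most
`Y = (m + 1)^(m - 1) D / μ^(m - 1)` span `ℚ^ι`, `m = |ι|`.
-/

namespace Pool.Agent.N590.PA

open Finset

variable {ι : Type*} [Fintype ι]

/-- the sup norm -/
def sn (x : ι → ℤ) : ℕ := univ.sup fun i => (x i).natAbs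

theorem le_sn (x : ι → ℤ) (i : ι) : (x i).natAbs ≤ sn x := le_sup (f := fun i => (x i).natAbs) (mem_univ i)

theorem sn_le {x : ι → ℤ} {m : ℕ} (h : ∀ i, (x i).natAbs ≤ m) : sn x ≤ m :=
  Finset.sup_le fun i _ => h i

/-- the number of small vectors forces short vectors -/
theorem pow_le_card {G : Type*} [AddCommGroup G] [Finite G] (ψ : (ι → ℤ) →+ G) (μ : ℕ)
    (hμ : ∀ x, ψ x = 0 → x ≠ 0 → μ ≤ sn x) : μ ^ Fintype.card ι ≤ Nat.card G := by
  classical
  have := Fintype.ofFinite G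
  rcases Nat.eq_zero_or_pos μ with h0 | h0
  · subst h0
    rcases Nat.eq_zero_or_pos (Fintype.card ι) with h | h
    · rw [h, pow_zero]; exact Nat.card_pos
    · rw [zero_pow h.ne']; exact Nat.zero_le _
  let f : (ι → Fin μ) → G := fun v => ψ fun i => ((v i : ℕ) : ℤ)
  have hf : Function.Injective f := by
    intro v v' h
    by_contra hne
    have h1 : ψ ((fun i => ((v i : ℕ) : ℤ)) - fun i => ((v' i : ℕ) : ℤ)) = 0 := by
      rw [map_sub, sub_eq_zero]; exact h
    have h2 : ((fun i => ((v i : ℕ) : ℤ)) - fun i => ((v' i : ℕ) : ℤ)) ≠ 0 := by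
      intro h3
      apply hne
      funext i
      have := congrFun h3 i
      simp only [Pi.sub_apply, Pi.zero_apply] at this
      apply Fin.ext
      omega
    have h3 := hμ _ h1 h2
    have h4 : sn ((fun i => ((v i : ℕ) : ℤ)) - fun i => ((v' i : ℕ) : ℤ)) ≤ μ - 1 := by
      apply sn_le
      intro i
      have h5 := (v i).isLt
      have h6 := (v' i).isLt
      simp only [Pi.sub_apply]
      omega
    omega
  have := Nat.card_le_card_of_injective f hf
  simpa using this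

theorem not_hyperplane {G : Type*} [AddCommGroup G] [Finite G] (ψ : (ι → ℤ) →+ G) (μ Y : ℕ)
    (hμ0 : 1 ≤ μ) (hμ : ∀ x, ψ x = 0 → x ≠ 0 → μ ≤ sn x)
    (hY : Nat.card G * (Fintype.card ι * Y / μ + 1) ^ (Fintype.card ι - 1) <
      (Y + 1) ^ Fintype.card ι) (c : ι → ℚ) (hc : c ≠ 0) :
    ∃ x : ι → ℤ, ψ x = 0 ∧ sn x ≤ Y ∧ ∑ i, c i * x i ≠ 0 := by
  classical
  have := Fintype.ofFinite G
  by_contra hcon
  push Not at hcon
  set m := Fintype.card ι with hm
  obtain ⟨i₀, hi₀⟩ := Function.ne_iff.mp hc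
  obtain ⟨j, -, hj⟩ := exists_max_image (univ : Finset ι) (fun i => |c i|) ⟨i₀, mem_univ _⟩
  have hcj : 0 < |c j| := lt_of_lt_of_le (abs_pos.mpr hi₀) (hj i₀ (mem_univ _))
  -- the cells
  let f : (ι → Fin (Y + 1)) → G × ({i // i ≠ j} → Fin (m * Y / μ + 1)) := fun v =>
    (ψ fun i => ((v i : ℕ) : ℤ), fun i => ⟨m * (v i : ℕ) / μ, by
      have h1 : (v i : ℕ) ≤ Y := Nat.lt_succ_iff.mp (v i).isLt
      exact Nat.lt_succ_iff.mpr (Nat.div_le_div_right (Nat.mul_le_mul_left m h1))⟩)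
  have hcard : Fintype.card (G × ({i // i ≠ j} → Fin (m * Y / μ + 1))) <
      Fintype.card (ι → Fin (Y + 1)) := by
    rw [Fintype.card_prod, Fintype.card_fun, Fintype.card_fun, Fintype.card_fin, Fintype.card_fin,
      Fintype.card_subtype_compl, Fintype.card_subtype_eq, ← Nat.card_eq_fintype_card]
    exact hY
  obtain ⟨v, v', hne, heq⟩ := Fintype.exists_ne_map_eq_of_card_lt f hcard
  simp only [f, Prod.mk.injEq] at heq
  obtain ⟨h1, h2⟩ := heq
  set x : ι → ℤ := (fun i => ((v i : ℕ) : ℤ)) - fun i => ((v' i : ℕ) : ℤ) with hx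
  have hx0 : ψ x = 0 := by rw [hx, map_sub, sub_eq_zero]; exact h1
  have hxne : x ≠ 0 := by
    intro h3
    apply hne
    funext i
    have := congrFun h3 i
    simp only [hx, Pi.sub_apply, Pi.zero_apply] at this
    apply Fin.ext
    omega
  have hxY : sn x ≤ Y := by
    apply sn_le
    intro i
    have h5 := (v i).isLt
    have h6 := (v' i).isLt
    simp only [hx, Pi.sub_apply]
    omega
  have hsum := hcon x hx0 hxY
  -- small coordinates
  have hsmall : ∀ i, i ≠ j → m * (x i).natAbs < μ := by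
    intro i hi
    have h3 := congrArg Fin.val (congrFun h2 ⟨i, hi⟩)
    simp only at h3
    have h4 : m * (v i : ℕ) < μ * (m * (v i : ℕ) / μ) + μ := Nat.lt_mul_div_succ _ hμ0
    have h5 : m * (v' i : ℕ) < μ * (m * (v' i : ℕ) / μ) + μ := Nat.lt_mul_div_succ _ hμ0
    have h6 : μ * (m * (v i : ℕ) / μ) ≤ m * (v i : ℕ) := Nat.mul_div_le _ _
    have h7 : μ * (m * (v' i : ℕ) / μ) ≤ m * (v' i : ℕ) := Nat.mul_div_le _ _
    rw [h3] at h4 h6
    have h8 : ((m * (x i).natAbs : ℕ) : ℤ) = |(m : ℤ) * (v i : ℕ) - (m : ℤ) * (v' i : ℕ)| := by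
      rw [← mul_sub, abs_mul, Nat.abs_cast]
      push_cast
      simp [hx]
    have h9 : |(m : ℤ) * (v i : ℕ) - (m : ℤ) * (v' i : ℕ)| < μ := by
      rw [abs_lt]
      have h4' : (m : ℤ) * (v i : ℕ) < μ * (m * (v' i : ℕ) / μ : ℕ) + μ := by exact_mod_cast h4
      have h5' : (m : ℤ) * (v' i : ℕ) < μ * (m * (v' i : ℕ) / μ : ℕ) + μ := by exact_mod_cast h5
      have h6' : (μ : ℤ) * (m * (v' i : ℕ) / μ : ℕ) ≤ m * (v i : ℕ) := by exact_mod_cast h6
      have h7' : (μ : ℤ) * (m * (v' i : ℕ) / μ : ℕ) ≤ m * (v' i : ℕ) := by exact_mod_cast h7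
      constructor <;> linarith
    rw [← h8] at h9
    exact_mod_cast h9
  -- the coordinate `j`
  have hjb : ((x j).natAbs : ℚ) ≤ ∑ i ∈ univ.erase j, ((x i).natAbs : ℚ) := by
    have h3 : c j * x j = -∑ i ∈ univ.erase j, c i * x i := by
      rw [← add_sum_erase univ _ (mem_univ j)] at hsum
      linarith
    have h4 : |c j| * ((x j).natAbs : ℚ) ≤ |c j| * ∑ i ∈ univ.erase j, ((x i).natAbs : ℚ) := by
      have e : ∀ i, ((x i).natAbs : ℚ) = |(x i : ℚ)| := by
        intro i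
        rw [Nat.cast_natAbs, Int.cast_abs]
      rw [e, ← abs_mul, h3, abs_neg, mul_sum]
      refine (abs_sum_le_sum_abs _ _).trans (sum_le_sum fun i _ => ?_)
      rw [abs_mul, e]
      exact mul_le_mul_of_nonneg_right (hj i (mem_univ i)) (abs_nonneg _)
    exact le_of_mul_le_mul_left h4 hcj
  have hjb' : (x j).natAbs ≤ ∑ i ∈ univ.erase j, (x i).natAbs := by exact_mod_cast hjb
  have hcardj : (univ.erase j : Finset ι).card = m - 1 := by
    rw [card_erase_of_mem (mem_univ j), card_univ]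
  have hm1 : 1 ≤ m := Fintype.card_pos_iff.mpr ⟨j⟩
  have hsn : sn x ≤ μ - 1 := by
    apply sn_le
    intro i
    by_cases hi : i = j
    · subst hi
      have h3 : m * (x i).natAbs ≤ (m - 1) * (μ - 1) := by
        calc m * (x i).natAbs ≤ m * ∑ k ∈ univ.erase i, (x k).natAbs := Nat.mul_le_mul_left _ hjb'
          _ = ∑ k ∈ univ.erase i, m * (x k).natAbs := by rw [mul_sum]
          _ ≤ ∑ _k ∈ univ.erase i, (μ - 1) := by
              refine sum_le_sum fun k hk => ?_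
              have := hsmall k (ne_of_mem_erase hk)
              omega
          _ = (m - 1) * (μ - 1) := by rw [sum_const, hcardj, smul_eq_mul]
      have h4 : (m - 1) * (μ - 1) ≤ m * (μ - 1) := Nat.mul_le_mul_right _ (by omega)
      exact Nat.le_of_mul_le_mul_left (h3.trans h4) hm1
    · have h3 := hsmall i hi
      have h4 : (x i).natAbs ≤ m * (x i).natAbs := Nat.le_mul_of_pos_left _ hm1
      omega
  have := hμ x hx0 hxne
  omega

/-- vectors of `L` of length at most `Y` span `ℚ^ι`, so every `t ∈ L` is congruent modulo `N L` to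
a vector of length at most `|ι| N Y` -/
theorem exists_reduced {G : Type*} [AddCommGroup G] [Finite G] (ψ : (ι → ℤ) →+ G) (μ Y : ℕ)
    (hμ0 : 1 ≤ μ) (hμ : ∀ x, ψ x = 0 → x ≠ 0 → μ ≤ sn x)
    (hY : Nat.card G * (Fintype.card ι * Y / μ + 1) ^ (Fintype.card ι - 1) <
      (Y + 1) ^ Fintype.card ι) (t : ι → ℤ) (ht : ψ t = 0) (N : ℕ) (hN : 1 ≤ N) :
    ∃ t' : ι → ℤ, ψ t' = 0 ∧ (∃ s : ι → ℤ, t' = t - (N : ℤ) • s) ∧
      sn t' ≤ Fintype.card ι * N * Y := by
  classical
  let toQ : (ι → ℤ) → (ι → ℚ) := fun x i => (x i : ℚ)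
  let S : Set (ι → ℚ) := toQ '' {x | ψ x = 0 ∧ sn x ≤ Y}
  have hspan : Submodule.span ℚ S = ⊤ := by
    by_contra hne
    obtain ⟨f, hf0, hf⟩ := Submodule.exists_le_ker_of_lt_top _ (lt_top_iff_ne_top.mpr hne)
    let c : ι → ℚ := fun i => f (Pi.single i 1)
    have hfc : ∀ y : ι → ℚ, f y = ∑ i, c i * y i := by
      intro y
      conv_lhs => rw [← Finset.univ_sum_single y]
      rw [map_sum]
      refine sum_congr rfl fun i _ => ?_
      have : (Pi.single i (y i) : ι → ℚ) = y i • Pi.single i (1 : ℚ) := by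
        rw [← Pi.single_smul, smul_eq_mul, mul_one]
      rw [this, map_smul, smul_eq_mul, mul_comm]
    have hc0 : c ≠ 0 := by
      intro h
      apply hf0
      ext y
      simp [hfc, h]
    obtain ⟨x, hx1, hx2, hx3⟩ := not_hyperplane ψ μ Y hμ0 hμ hY c hc0
    apply hx3
    rw [← hfc]
    exact hf (Submodule.subset_span ⟨x, ⟨hx1, hx2⟩, rfl⟩)
  obtain ⟨b, hbS, hbspan, hbind⟩ := exists_linearIndependent ℚ S
  have hbfin : b.Finite := by
    have := hbind.finite
    exact Set.toFinite b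
  have : Fintype b := hbfin.fintype
  have hbcard : Fintype.card b ≤ Fintype.card ι := by
    have := hbind.fintype_card_le_finrank
    simpa using this
  have htb : (fun i => (t i : ℚ) / N) ∈ Submodule.span ℚ (Set.range (Subtype.val : b → ι → ℚ)) := by
    rw [Subtype.range_coe, hbspan, hspan]; trivial
  rw [Submodule.mem_span_range_iff_exists_fun] at htb
  obtain ⟨q, hq⟩ := htb
  have hch : ∀ y : b, ∃ x : ι → ℤ, ψ x = 0 ∧ sn x ≤ Y ∧ toQ x = y := by
    intro y
    obtain ⟨x, ⟨hx1, hx2⟩, hx3⟩ := hbS y.2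
    exact ⟨x, hx1, hx2, hx3⟩
  choose z hz1 hz2 hz3 using hch
  refine ⟨t - (N : ℤ) • ∑ y : b, ⌊q y⌋ • z y, ?_, ⟨_, rfl⟩, ?_⟩
  · rw [map_sub, ht, map_zsmul, map_sum]
    have : ∀ y : b, ψ (⌊q y⌋ • z y) = 0 := fun y => by rw [map_zsmul, hz1, smul_zero]
    simp only [this, sum_const_zero, smul_zero, sub_zero]
  · apply sn_le
    intro i
    have h1 : ((t - (N : ℤ) • ∑ y : b, ⌊q y⌋ • z y) i : ℤ) = t i - N * ∑ y : b, ⌊q y⌋ * z y i := by
      simp [Finset.sum_apply]
    rw [h1]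
    have hN0 : (N : ℚ) ≠ 0 := by positivity
    have h2 : ((t i - N * ∑ y : b, ⌊q y⌋ * z y i : ℤ) : ℚ) =
        ∑ y : b, (N * Int.fract (q y)) * (z y i : ℚ) := by
      have h3 : (t i : ℚ) = ∑ y : b, N * q y * (z y i : ℚ) := by
        have h4 := congrFun hq i
        simp only [Finset.sum_apply, Pi.smul_apply, smul_eq_mul] at h4
        rw [eq_div_iff hN0, sum_mul] at h4
        rw [← h4]
        refine sum_congr rfl fun y _ => ?_
        rw [← hz3 y]
        simp only [toQ]; ring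
      push_cast
      rw [h3, mul_sum, ← sum_sub_distrib]
      refine sum_congr rfl fun y _ => ?_
      rw [← Int.self_sub_floor]; ring
    have h3 : |((t i - N * ∑ y : b, ⌊q y⌋ * z y i : ℤ) : ℚ)| ≤ Fintype.card ι * N * Y := by
      rw [h2]
      refine (abs_sum_le_sum_abs _ _).trans ?_
      calc ∑ y : b, |N * Int.fract (q y) * (z y i : ℚ)| ≤ ∑ _y : b, (N * 1 * Y : ℚ) := by
            refine sum_le_sum fun y _ => ?_
            rw [abs_mul, abs_mul, Nat.abs_cast, abs_of_nonneg (Int.fract_nonneg _)]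
            have h4 : |(z y i : ℚ)| ≤ Y := by
              have h5 : ((z y i).natAbs : ℚ) ≤ Y := by
                exact_mod_cast (le_sn (z y) i).trans (hz2 y)
              rwa [Nat.cast_natAbs, Int.cast_abs] at h5
            have h5 := (Int.fract_lt_one (q y)).le
            have h6 := Int.fract_nonneg (q y)
            gcongr
        _ = Fintype.card b * (N * Y : ℚ) := by rw [sum_const, card_univ, nsmul_eq_mul, mul_one]
        _ ≤ Fintype.card ι * (N * Y : ℚ) := by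
            gcongr
        _ = Fintype.card ι * N * Y := by ring
    have h4 : ((t i - N * ∑ y : b, ⌊q y⌋ * z y i : ℤ).natAbs : ℚ) ≤
        ((Fintype.card ι * N * Y : ℕ) : ℚ) := by
      rw [Nat.cast_natAbs, Int.cast_abs]
      push_cast at h3 ⊢
      exact h3
    exact_mod_cast h4

/-- The final form: every `t ∈ L` is congruent modulo `N L` to a vector `t'` with
`|t'| μ^(m - 1) ≤ m N (m + 1)^(m - 1) D`. -/
theorem exists_reduced' {G : Type*} [AddCommGroup G] [Finite G] (ψ : (ι → ℤ) →+ G) (μ : ℕ)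
    (hι : 1 ≤ Fintype.card ι)
    (hμ0 : 1 ≤ μ) (hμ : ∀ x, ψ x = 0 → x ≠ 0 → μ ≤ sn x) (t : ι → ℤ) (ht : ψ t = 0)
    (N : ℕ) (hN : 1 ≤ N) :
    ∃ t' : ι → ℤ, ψ t' = 0 ∧ (∃ s : ι → ℤ, t' = t - (N : ℤ) • s) ∧
      sn t' * μ ^ (Fintype.card ι - 1) ≤
        Fintype.card ι * N * (Fintype.card ι + 1) ^ (Fintype.card ι - 1) * Nat.card G := by
  set m := Fintype.card ι with hm
  set D := Nat.card G with hD
  set Y := D * (m + 1) ^ (m - 1) / μ ^ (m - 1) with hYdef
  have hμp : 0 < μ ^ (m - 1) := Nat.pow_pos hμ0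
  have hY1 : D * (m + 1) ^ (m - 1) < (Y + 1) * μ ^ (m - 1) := by
    rw [mul_comm (Y + 1)]
    exact Nat.lt_mul_div_succ _ hμp
  have hY2 : Y * μ ^ (m - 1) ≤ D * (m + 1) ^ (m - 1) := Nat.div_mul_le_self _ _
  have hμY : μ ≤ Y := by
    rw [hYdef, Nat.le_div_iff_mul_le hμp]
    calc μ * μ ^ (m - 1) = μ ^ m := by rw [← pow_succ', Nat.sub_add_cancel hι]
      _ ≤ D := pow_le_card ψ μ hμ
      _ ≤ D * (m + 1) ^ (m - 1) := Nat.le_mul_of_pos_right _ (Nat.pow_pos (by omega))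
  have hkey : D * (m * Y / μ + 1) ^ (m - 1) < (Y + 1) ^ m := by
    have h1 : (m * Y / μ + 1) * μ ≤ (m + 1) * Y := by
      calc (m * Y / μ + 1) * μ = m * Y / μ * μ + μ := by ring
        _ ≤ m * Y + Y := Nat.add_le_add (Nat.div_mul_le_self _ _) hμY
        _ = (m + 1) * Y := by ring
    have h2 : D * (m * Y / μ + 1) ^ (m - 1) * μ ^ (m - 1) < (Y + 1) ^ m * μ ^ (m - 1) := by
      calc D * (m * Y / μ + 1) ^ (m - 1) * μ ^ (m - 1)
          = D * ((m * Y / μ + 1) * μ) ^ (m - 1) := by rw [mul_pow]; ring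
        _ ≤ D * ((m + 1) * Y) ^ (m - 1) := Nat.mul_le_mul_left _ (Nat.pow_le_pow_left h1 _)
        _ = D * (m + 1) ^ (m - 1) * Y ^ (m - 1) := by rw [mul_pow]; ring
        _ ≤ D * (m + 1) ^ (m - 1) * (Y + 1) ^ (m - 1) :=
            Nat.mul_le_mul_left _ (Nat.pow_le_pow_left (by omega) _)
        _ < (Y + 1) * μ ^ (m - 1) * (Y + 1) ^ (m - 1) :=
            Nat.mul_lt_mul_of_pos_right hY1 (Nat.pow_pos (by omega))
        _ = (Y + 1) ^ (m - 1 + 1) * μ ^ (m - 1) := by rw [pow_succ]; ring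
        _ = (Y + 1) ^ m * μ ^ (m - 1) := by rw [Nat.sub_add_cancel hι]
    exact Nat.lt_of_mul_lt_mul_right h2
  obtain ⟨t', h1, h2, h3⟩ := exists_reduced ψ μ Y hμ0 hμ hkey t ht N hN
  refine ⟨t', h1, h2, ?_⟩
  calc sn t' * μ ^ (m - 1) ≤ m * N * Y * μ ^ (m - 1) := Nat.mul_le_mul_right _ h3
    _ = m * N * (Y * μ ^ (m - 1)) := by ring
    _ ≤ m * N * (D * (m + 1) ^ (m - 1)) := Nat.mul_le_mul_left _ hY2
    _ = m * N * (m + 1) ^ (m - 1) * D := by ring

end Pool.Agent.N590.PA
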