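import Mathlib
import Pool.Agent.N590.PA.Lat

set_option autoImplicit false

namespace Pool.Agent.N590.PA

open Finset

variable {R : Type*} [CommRing R] {d : ℕ} (b : Module.Basis (Fin d) ℤ R)

/-- the largest absolute value of a coordinate -/
noncomputable def nm (x : R) : ℕ := sn fun i => b.repr x i

theorem le_nm (x : R) (i : Fin d) : (b.repr x i).natAbs ≤ nm b x := le_sn (fun i => b.repr x i) i

theorem nm_le {x : R} {m : ℕ} (h : ∀ i, (b.repr x i).natAbs ≤ m) : nm b x ≤ m := sn_le h

theorem nm_add (x y : R) : nm b (x + y) ≤ nm b x + nm b y := by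
  apply nm_le
  intro i
  have h1 := le_nm b x i
  have h2 := le_nm b y i
  rw [map_add, Finsupp.add_apply]
  omega

theorem nm_neg (x : R) : nm b (-x) = nm b x := by
  unfold nm sn
  refine sup_congr rfl fun i _ => ?_
  change (b.repr (-x) i).natAbs = (b.repr x i).natAbs
  rw [map_neg, Finsupp.neg_apply, Int.natAbs_neg]

theorem nm_sub (x y : R) : nm b (x - y) ≤ nm b x + nm b y := by
  rw [sub_eq_add_neg, ← nm_neg b y]
  exact nm_add b x (-y)

theorem repr_int_mul (m : ℤ) (x : R) (i : Fin d) : b.repr ((m : R) * x) i = m * b.repr x i := by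
  rw [← zsmul_eq_mul, map_zsmul, Finsupp.smul_apply, smul_eq_mul]

theorem nm_int_mul (m : ℤ) (x : R) : m.natAbs * nm b x ≤ nm b ((m : R) * x) := by
  unfold nm sn
  rcases (univ : Finset (Fin d)).eq_empty_or_nonempty with h | h
  · rw [h]; simp
  · obtain ⟨i, hi, hmax⟩ := exists_mem_eq_sup _ h (fun i => (b.repr x i).natAbs)
    rw [hmax]
    refine le_trans ?_ (le_sup (f := fun i => (b.repr ((m : R) * x) i).natAbs) hi)
    rw [repr_int_mul, Int.natAbs_mul]

theorem nm_eq_zero {x : R} (h : nm b x = 0) : x = 0 := by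
  have : b.repr x = 0 := by
    ext i
    have := le_nm b x i
    rw [h] at this
    have : (b.repr x i).natAbs = 0 := by omega
    simpa using this
  simpa using this

/-- the norm is submultiplicative up to a constant -/
theorem exists_mul_bound : ∃ K : ℕ, 1 ≤ K ∧ ∀ x y : R, nm b (x * y) ≤ K * nm b x * nm b y := by
  refine ⟨1 + ∑ i, ∑ j, nm b (b i * b j), by omega, ?_⟩
  intro x y
  apply nm_le
  intro k
  have h1 : x * y = ∑ i, ∑ j, ((b.repr x i * b.repr y j : ℤ) : R) * (b i * b j) := by
    conv_lhs => rw [← b.sum_repr x, ← b.sum_repr y, sum_mul_sum]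
    refine sum_congr rfl fun i _ => sum_congr rfl fun j _ => ?_
    rw [zsmul_eq_mul, zsmul_eq_mul]
    push_cast; ring
  have h2 : b.repr (x * y) k = ∑ i, ∑ j, b.repr x i * b.repr y j * b.repr (b i * b j) k := by
    rw [h1, map_sum, Finsupp.finsetSum_apply]
    refine sum_congr rfl fun i _ => ?_
    rw [map_sum, Finsupp.finsetSum_apply]
    refine sum_congr rfl fun j _ => ?_
    rw [repr_int_mul]
  have h3 : ((b.repr (x * y) k).natAbs : ℤ) ≤
      ((∑ i, ∑ j, nm b x * nm b y * nm b (b i * b j) : ℕ) : ℤ) := by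
    rw [h2, ← Int.abs_eq_natAbs]
    refine (abs_sum_le_sum_abs _ _).trans ?_
    push_cast
    refine sum_le_sum fun i _ => (abs_sum_le_sum_abs _ _).trans (sum_le_sum fun j _ => ?_)
    rw [abs_mul, abs_mul]
    have e1 : |b.repr x i| ≤ nm b x := by rw [Int.abs_eq_natAbs]; exact_mod_cast le_nm b x i
    have e2 : |b.repr y j| ≤ nm b y := by rw [Int.abs_eq_natAbs]; exact_mod_cast le_nm b y j
    have e3 : |b.repr (b i * b j) k| ≤ nm b (b i * b j) := by
      rw [Int.abs_eq_natAbs]; exact_mod_cast le_nm b _ k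
    gcongr
  have h4 : (b.repr (x * y) k).natAbs ≤ ∑ i, ∑ j, nm b x * nm b y * nm b (b i * b j) := by
    exact_mod_cast h3
  refine h4.trans ?_
  simp_rw [← mul_sum]
  calc nm b x * nm b y * ∑ i, ∑ j, nm b (b i * b j) =
        (∑ i, ∑ j, nm b (b i * b j)) * nm b x * nm b y := by ring
    _ ≤ _ := by gcongr; omega

/-- reduction modulo `g` -/
theorem exists_reduction [IsDomain R] (K : ℕ)
    (hK : ∀ x y : R, nm b (x * y) ≤ K * nm b x * nm b y) (g : R) (hg : g ≠ 0) (x : R) :
    ∃ y : R, nm b (x - g * y) ≤ K * nm b g := by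
  classical
  have : Module.Finite ℤ R := Module.Finite.of_basis b
  -- a nonzero integer multiple of `g`
  have h1 : ∃ m : ℤ, m ≠ 0 ∧ ∃ h : R, g * h = (m : R) := by
    have hint : IsIntegral ℤ g := Algebra.IsIntegral.isIntegral g
    have h2 := Ideal.comap_ne_bot_of_integral_mem (I := Ideal.span {g}) hg
      (Ideal.mem_span_singleton_self g) hint
    obtain ⟨m, hm, hm0⟩ := (Submodule.ne_bot_iff _).mp h2
    rw [Ideal.mem_comap, Ideal.mem_span_singleton'] at hm
    obtain ⟨h, hh⟩ := hm
    refine ⟨m, hm0, h, ?_⟩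
    rw [mul_comm, hh]; simp
  obtain ⟨m, hm0, h, hh⟩ := h1
  set y : R := ∑ i, ((b.repr (x * h) i / m : ℤ) : R) * b i with hy
  set r : R := ∑ i, ((b.repr (x * h) i % m : ℤ) : R) * b i with hr
  have hxr : x * h = (m : R) * y + r := by
    conv_lhs => rw [← b.sum_repr (x * h)]
    rw [hy, hr, mul_sum, ← sum_add_distrib]
    refine sum_congr rfl fun i _ => ?_
    rw [zsmul_eq_mul]
    have := Int.mul_ediv_add_emod (b.repr (x * h) i) m
    conv_lhs => rw [← this]
    push_cast; ring
  have hnr : nm b r ≤ m.natAbs := by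
    apply nm_le
    intro i
    have : b.repr r i = b.repr (x * h) i % m := by
      rw [hr]
      have h3 : (∑ i, ((b.repr (x * h) i % m : ℤ) : R) * b i) =
          ∑ i, (b.repr (x * h) i % m) • b i := by
        refine sum_congr rfl fun i _ => ?_
        rw [zsmul_eq_mul]
      rw [h3, b.repr_sum_self]
    rw [this]
    have h3 := Int.emod_nonneg (b.repr (x * h) i) hm0
    have h4 := Int.emod_lt_abs (b.repr (x * h) i) hm0
    rw [Int.abs_eq_natAbs] at h4
    omega
  have hmul : (m : R) * (x - g * y) = g * r := by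
    have : (m : R) * x = g * (x * h) := by rw [← hh]; ring
    rw [mul_sub, this, hxr]; ring
  refine ⟨y, ?_⟩
  have h5 := nm_int_mul b m (x - g * y)
  rw [hmul] at h5
  have h6 := hK g r
  have h7 : m.natAbs * nm b (x - g * y) ≤ m.natAbs * (K * nm b g) := by
    calc m.natAbs * nm b (x - g * y) ≤ K * nm b g * nm b r := h5.trans h6
      _ ≤ K * nm b g * m.natAbs := Nat.mul_le_mul_left _ hnr
      _ = m.natAbs * (K * nm b g) := by ring
  exact Nat.le_of_mul_le_mul_left h7 (Int.natAbs_pos.mpr hm0)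

/-- the number of elements of bounded norm -/
theorem ncard_ball (X : ℕ) : {x : R | nm b x ≤ X}.Finite ∧
    {x : R | nm b x ≤ X}.ncard ≤ (2 * X + 1) ^ d := by
  classical
  let B : Finset (Fin d → ℤ) := Fintype.piFinset fun _ => Icc (-(X : ℤ)) X
  have hsub : {x : R | nm b x ≤ X} ⊆ (fun v => b.equivFun.symm v) '' (B : Set (Fin d → ℤ)) := by
    intro x hx
    refine ⟨b.equivFun x, ?_, b.equivFun.symm_apply_apply x⟩
    rw [mem_coe, Fintype.mem_piFinset]
    intro i
    have h1 := (le_nm b x i).trans hx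
    rw [mem_Icc, Module.Basis.equivFun_apply]
    omega
  have hfin : ((fun v => b.equivFun.symm v) '' (B : Set (Fin d → ℤ))).Finite :=
    (finite_toSet B).image _
  refine ⟨hfin.subset hsub, ?_⟩
  calc {x : R | nm b x ≤ X}.ncard ≤ ((fun v => b.equivFun.symm v) '' (B : Set (Fin d → ℤ))).ncard :=
        Set.ncard_le_ncard hsub hfin
    _ ≤ (B : Set (Fin d → ℤ)).ncard := Set.ncard_image_le (finite_toSet B)
    _ = B.card := Set.ncard_coe_finset B
    _ = (2 * X + 1) ^ d := by
        rw [Fintype.card_piFinset]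
        simp only [Int.card_Icc, prod_const, card_univ, Fintype.card_fin]
        congr 1
        omega

end Pool.Agent.N590.PA
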