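import Mathlib
import Pool.Agent.N590.PA.Ring
import Pool.Agent.N590.PA.Group
import Pool.Agent.N590.PA.Digits

set_option autoImplicit false

/-!
# Short vectors in the lattices `{(f, g) | f = g a mod π^n}`
-/

namespace Pool.Agent.N590.PA

open Finset

variable {R : Type*} [CommRing R] {d : ℕ} (b : Module.Basis (Fin d) ℤ R)

/-- the least norm of a nonzero vector of the lattice of the word `w` -/
noncomputable def sh (p : R) (N n : ℕ) (w : Fin n → Fin N) : ℕ :=
  sInf {m : ℕ | ∃ f g : R, (f ≠ 0 ∨ g ≠ 0) ∧ p ^ n ∣ g * val p N n w - f ∧ nm b f ≤ m ∧ nm b g ≤ m}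

variable {p : R} {N : ℕ}

theorem sh_le (n : ℕ) (w : Fin n → Fin N) (f g : R) (m : ℕ) (h0 : f ≠ 0 ∨ g ≠ 0)
    (h1 : p ^ n ∣ g * val p N n w - f) (h2 : nm b f ≤ m) (h3 : nm b g ≤ m) : sh b p N n w ≤ m :=
  Nat.sInf_le ⟨f, g, h0, h1, h2, h3⟩

variable [IsDomain R]

theorem sh_spec (hG : Good p N) (n : ℕ) (w : Fin n → Fin N) :
    ∃ f g : R, (f ≠ 0 ∨ g ≠ 0) ∧ p ^ n ∣ g * val p N n w - f ∧ nm b f ≤ sh b p N n w ∧
      nm b g ≤ sh b p N n w := by
  have hne : {m : ℕ | ∃ f g : R, (f ≠ 0 ∨ g ≠ 0) ∧ p ^ n ∣ g * val p N n w - f ∧ nm b f ≤ m ∧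
      nm b g ≤ m}.Nonempty :=
    ⟨max (nm b (p ^ n)) (nm b 0), p ^ n, 0, Or.inl (pow_ne_zero n hG.ne_zero), ⟨-1, by ring⟩,
      le_max_left _ _, le_max_right _ _⟩
  exact Nat.sInf_mem hne

theorem sh_pos (hG : Good p N) (n : ℕ) (w : Fin n → Fin N) : 1 ≤ sh b p N n w := by
  obtain ⟨f, g, h0, -, h2, h3⟩ := sh_spec b hG n w
  by_contra h
  have h4 : sh b p N n w = 0 := by omega
  rw [h4] at h2 h3
  rcases h0 with h | h
  · exact h (nm_eq_zero b (by omega))
  · exact h (nm_eq_zero b (by omega))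

/-- words and residue classes -/
theorem bij (hG : Good p N) (n : ℕ) : Function.Bijective
    (fun w : Fin n → Fin N => (Ideal.Quotient.mk (Ideal.span {p ^ n}) (val p N n w))) := by
  constructor
  · intro w w' h
    rw [Ideal.Quotient.eq, Ideal.mem_span_singleton] at h
    exact val_injective hG n w w' h
  · intro q
    obtain ⟨x, rfl⟩ := Ideal.Quotient.mk_surjective q
    obtain ⟨w, hw⟩ := val_surjective hG n x
    refine ⟨w, ?_⟩
    rw [Ideal.Quotient.eq, Ideal.mem_span_singleton, ← dvd_neg, neg_sub]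
    exact hw

theorem finite_quot (hG : Good p N) (n : ℕ) : Finite (R ⧸ Ideal.span {p ^ n}) :=
  Finite.of_surjective _ (bij hG n).2

theorem card_quot (hG : Good p N) (n : ℕ) : Nat.card (R ⧸ Ideal.span {p ^ n}) = N ^ n := by
  rw [← Nat.card_eq_of_bijective _ (bij hG n)]
  simp

theorem card_fixed (hG : Good p N) (K : ℕ)
    (hK : ∀ x y : R, nm b (x * y) ≤ K * nm b x * nm b y) (n X : ℕ) (hX : 1 ≤ X) (g : R)
    (hg : g ≠ 0) (hgX : nm b g ≤ X) :
    {w : Fin n → Fin N | ∃ f : R, nm b f ≤ X ∧ p ^ n ∣ g * val p N n w - f}.ncard ≤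
      ((2 * K + 3) * X) ^ d := by
  classical
  have := finite_quot hG n
  set mk := Ideal.Quotient.mk (Ideal.span {p ^ n}) with hmk
  let μ : (R ⧸ Ideal.span {p ^ n}) →+ (R ⧸ Ideal.span {p ^ n}) := AddMonoidHom.mulLeft (mk g)
  have h1 := card_preimage_le μ (mk '' {f | nm b f ≤ X}) (mk '' {t | nm b t ≤ K * X})
    (mk '' {x | nm b x ≤ (K + 1) * X}) ?_ ?_
  · have h2 : {w : Fin n → Fin N | ∃ f : R, nm b f ≤ X ∧ p ^ n ∣ g * val p N n w - f}.ncard ≤
        {a | μ a ∈ mk '' {f | nm b f ≤ X}}.ncard := by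
      refine Set.ncard_le_ncard_of_injOn (fun w => mk (val p N n w)) ?_
        (fun w _ w' _ h => (bij hG n).1 h) (Set.toFinite _)
      rintro w ⟨f, hf, hd⟩
      refine ⟨f, hf, ?_⟩
      change mk f = mk g * mk (val p N n w)
      rw [← map_mul, hmk, Ideal.Quotient.eq, Ideal.mem_span_singleton, ← dvd_neg, neg_sub]
      exact hd
    refine (h2.trans h1).trans ?_
    obtain ⟨hfin, hcard⟩ := ncard_ball b ((K + 1) * X)
    refine (Set.ncard_image_le hfin).trans (hcard.trans ?_)
    apply Nat.pow_le_pow_left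
    nlinarith
  · intro q
    obtain ⟨x, rfl⟩ := Ideal.Quotient.mk_surjective q
    obtain ⟨y, hy⟩ := exists_reduction b K hK g hg x
    refine ⟨mk (x - g * y), ⟨x - g * y, hy.trans (Nat.mul_le_mul_left _ hgX), rfl⟩, mk y, ?_⟩
    change mk g * mk y = mk x - mk (x - g * y)
    rw [map_sub, map_mul]; ring
  · rintro _ ⟨f, hf, rfl⟩ _ ⟨t, ht, rfl⟩
    refine ⟨f + t, ?_, map_add _ _ _⟩
    have := nm_add b f t
    simp only [Set.mem_ofPred_eq] at hf ht ⊢
    nlinarith

/-- few words have a short vector -/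
theorem card_short (hG : Good p N) (K : ℕ)
    (hK : ∀ x y : R, nm b (x * y) ≤ K * nm b x * nm b y) (n X : ℕ) (hX : 1 ≤ X) :
    ((univ : Finset (Fin n → Fin N)).filter fun w => sh b p N n w ≤ X).card ≤
      (3 * (2 * K + 3)) ^ d * X ^ (2 * d) := by
  classical
  have hbound : ((2 * K + 3) * X) ^ d ≤ (3 * (2 * K + 3)) ^ d * X ^ (2 * d) := by
    calc ((2 * K + 3) * X) ^ d = (2 * K + 3) ^ d * X ^ d := mul_pow _ _ _
      _ ≤ (3 * (2 * K + 3)) ^ d * X ^ (2 * d) := by
        apply Nat.mul_le_mul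
        · exact Nat.pow_le_pow_left (by omega) _
        · exact Nat.pow_le_pow_right hX (by omega)
  by_cases hex : ∃ f : R, f ≠ 0 ∧ p ^ n ∣ f ∧ nm b f ≤ X
  · obtain ⟨f, hf0, hfd, hfX⟩ := hex
    refine le_trans ?_ hbound
    have h1 : ((univ : Finset (Fin n → Fin N)).filter fun w => sh b p N n w ≤ X).card ≤ N ^ n := by
      refine (card_filter_le _ _).trans ?_
      simp
    refine h1.trans ?_
    rw [← card_quot hG n]
    have := finite_quot hG n
    set mk := Ideal.Quotient.mk (Ideal.span {p ^ n}) with hmk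
    have h2 : (Set.univ : Set (R ⧸ Ideal.span {p ^ n})) ⊆ mk '' {x | nm b x ≤ K * X} := by
      intro q _
      obtain ⟨x, rfl⟩ := Ideal.Quotient.mk_surjective q
      obtain ⟨y, hy⟩ := exists_reduction b K hK f hf0 x
      refine ⟨x - f * y, hy.trans (Nat.mul_le_mul_left _ hfX), ?_⟩
      rw [hmk, Ideal.Quotient.eq, Ideal.mem_span_singleton]
      have : x - f * y - x = -(f * y) := by ring
      rw [this, dvd_neg]
      exact Dvd.dvd.mul_right hfd y
    obtain ⟨hfin, hcard⟩ := ncard_ball b (K * X)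
    have h3 := Set.ncard_le_ncard h2 (hfin.image _)
    rw [Set.ncard_univ] at h3
    refine h3.trans ((Set.ncard_image_le hfin).trans (hcard.trans ?_))
    apply Nat.pow_le_pow_left
    nlinarith
  · push Not at hex
    obtain ⟨hfin, hcard⟩ := ncard_ball b X
    let A : R → Finset (Fin n → Fin N) := fun g => univ.filter fun w =>
      g ≠ 0 ∧ ∃ f : R, nm b f ≤ X ∧ p ^ n ∣ g * val p N n w - f
    have hsub : ((univ : Finset (Fin n → Fin N)).filter fun w => sh b p N n w ≤ X) ⊆
        hfin.toFinset.biUnion A := by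
      intro w hw
      rw [mem_filter] at hw
      obtain ⟨f, g, h0, h1, h2, h3⟩ := sh_spec b hG n w
      have hg : g ≠ 0 := by
        rintro rfl
        rw [zero_mul, zero_sub, dvd_neg] at h1
        have hf : f ≠ 0 := by
          rcases h0 with h | h
          · exact h
          · exact absurd rfl h
        have := hex f hf h1
        have := h2.trans hw.2
        omega
      rw [mem_biUnion]
      refine ⟨g, ?_, ?_⟩
      · rw [Set.Finite.mem_toFinset]; exact h3.trans hw.2
      · rw [mem_filter]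
        exact ⟨mem_univ _, hg, f, h2.trans hw.2, h1⟩
    calc ((univ : Finset (Fin n → Fin N)).filter fun w => sh b p N n w ≤ X).card ≤
          (hfin.toFinset.biUnion A).card := card_le_card hsub
      _ ≤ ∑ g ∈ hfin.toFinset, (A g).card := card_biUnion_le
      _ ≤ ∑ _g ∈ hfin.toFinset, ((2 * K + 3) * X) ^ d := by
          refine sum_le_sum fun g hg => ?_
          rw [Set.Finite.mem_toFinset] at hg
          by_cases hg0 : g = 0
          · have : A g = ∅ := by
              rw [filter_eq_empty_iff]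
              intro w _ h
              exact h.1 hg0
            rw [this]; simp
          · have h1 := card_fixed b hG K hK n X hX g hg0 hg
            refine le_trans (le_of_eq ?_) h1
            rw [← Set.ncard_coe_finset]
            congr 1
            ext w
            simp [A, hg0]
      _ = hfin.toFinset.card * ((2 * K + 3) * X) ^ d := by rw [sum_const, smul_eq_mul]
      _ ≤ (3 * X) ^ d * ((2 * K + 3) * X) ^ d := by
          apply Nat.mul_le_mul_right
          rw [← Set.ncard_eq_toFinset_card _ hfin]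
          refine hcard.trans (Nat.pow_le_pow_left (by omega) _)
      _ = (3 * (2 * K + 3)) ^ d * X ^ (2 * d) := by
          rw [two_mul d, pow_add, mul_pow, mul_pow, mul_pow]; ring

/-- there are good vectors of moderate length -/
theorem exists_good (hG : Good p N) (hd : 1 ≤ d) (n : ℕ) (w : Fin n → Fin N) :
    ∃ f g : R, (∃ h : R, p ∣ g * h - 1) ∧ p ^ n ∣ g * val p N n w - f ∧
      max (nm b f) (nm b g) * sh b p N n w ^ (2 * d - 1) ≤
        2 * d * N * (2 * d + 1) ^ (2 * d - 1) * N ^ n := by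
  classical
  have := finite_quot hG n
  set mk := Ideal.Quotient.mk (Ideal.span {p ^ n}) with hmk
  let F : (Fin d ⊕ Fin d → ℤ) → R := fun v => ∑ i, v (Sum.inl i) • b i
  let H : (Fin d ⊕ Fin d → ℤ) → R := fun v => ∑ i, v (Sum.inr i) • b i
  have hFadd : ∀ v v', F (v + v') = F v + F v' := by
    intro v v'
    simp only [F, Pi.add_apply, add_smul, sum_add_distrib]
  have hHadd : ∀ v v', H (v + v') = H v + H v' := by
    intro v v'
    simp only [H, Pi.add_apply, add_smul, sum_add_distrib]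
  let ψ : (Fin d ⊕ Fin d → ℤ) →+ (R ⧸ Ideal.span {p ^ n}) :=
    AddMonoidHom.mk' (fun v => mk (H v * val p N n w - F v)) (by
      intro v v'
      rw [hFadd, hHadd, ← map_add]
      congr 1
      ring)
  have hψ : ∀ v, ψ v = 0 ↔ p ^ n ∣ H v * val p N n w - F v := by
    intro v
    change mk (H v * val p N n w - F v) = 0 ↔ _
    rw [hmk, Ideal.Quotient.eq_zero_iff_mem, Ideal.mem_span_singleton]
  have hFrepr : ∀ v i, b.repr (F v) i = v (Sum.inl i) := fun v i => by
    simp only [F, b.repr_sum_self]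
  have hHrepr : ∀ v i, b.repr (H v) i = v (Sum.inr i) := fun v i => by
    simp only [H, b.repr_sum_self]
  have hnF : ∀ v, nm b (F v) ≤ sn v := fun v => by
    apply nm_le
    intro i
    rw [hFrepr]
    exact le_sn v _
  have hnH : ∀ v, nm b (H v) ≤ sn v := fun v => by
    apply nm_le
    intro i
    rw [hHrepr]
    exact le_sn v _
  have hμ : ∀ x, ψ x = 0 → x ≠ 0 → sh b p N n w ≤ sn x := by
    intro x hx hx0
    refine sh_le b n w (F x) (H x) _ ?_ ((hψ x).mp hx) (hnF x) (hnH x)
    by_contra hcon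
    push Not at hcon
    apply hx0
    funext i
    rcases i with i | i
    · have := hFrepr x i
      rw [hcon.1] at this
      simpa using this.symm
    · have := hHrepr x i
      rw [hcon.2] at this
      simpa using this.symm
  let t : Fin d ⊕ Fin d → ℤ := Sum.elim (fun i => b.repr (val p N n w) i) (fun i => b.repr 1 i)
  have hFt : F t = val p N n w := b.sum_repr _
  have hHt : H t = 1 := b.sum_repr _
  have ht : ψ t = 0 := by
    rw [hψ, hFt, hHt]; simp
  have hcardι : Fintype.card (Fin d ⊕ Fin d) = 2 * d := by simp; ring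
  obtain ⟨t', h1, ⟨s, hs⟩, h3⟩ := exists_reduced' ψ (sh b p N n w) (by rw [hcardι]; omega)
    (sh_pos b hG n w) hμ t ht N (by have := hG.two_le; omega)
  rw [hcardι, card_quot hG n] at h3
  refine ⟨F t', H t', ?_, (hψ t').mp h1, ?_⟩
  · refine ⟨1, ?_⟩
    have h4 : H t' = 1 - (N : R) * H s := by
      rw [hs, ← hHt]
      simp only [H, Pi.sub_apply, Pi.smul_apply, sub_smul, sum_sub_distrib, mul_sum]
      congr 1
      refine sum_congr rfl fun i _ => ?_
      simp only [zsmul_eq_mul, smul_eq_mul]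
      push_cast; ring
    have h5 : p ∣ (N : R) := by
      have := (hG.dvd_iff (N : ℤ)).mpr dvd_rfl
      simpa using this
    have e : H t' * 1 - 1 = -((N : R) * H s) := by rw [h4]; ring
    rw [e, dvd_neg]
    exact Dvd.dvd.mul_right h5 _
  · exact (Nat.mul_le_mul_right _ (max_le (hnF t') (hnH t'))).trans h3

end Pool.Agent.N590.PA
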