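import Mathlib
import Pool.Agent.N590.PA.Short
import Pool.Agent.N590.NA.Count

set_option autoImplicit false

/-!
# The average `π`-adic complexity of finite words is `n / 2 + O(1)`
-/

namespace Pool.Agent.N590.PA

open Finset

variable {R : Type*} [CommRing R] {d : ℕ} (b : Module.Basis (Fin d) ℤ R) {p : R} {N : ℕ}

theorem logb_nonneg' (hN : 2 ≤ N) (k : ℕ) : 0 ≤ Real.logb N k := by
  rcases Nat.eq_zero_or_pos k with h | h
  · subst h; simp
  · apply Real.logb_nonneg
    · exact_mod_cast (by omega : 1 < N)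
    · exact_mod_cast h

variable [IsDomain R]

theorem main_bound (hG : Good p N) (hd : 1 ≤ d) (φ : R → ℝ)
    (h1 : ∀ x, d * Real.logb N (nm b x) ≤ φ x) (h2 : ∀ x, φ x ≤ d * Real.logb N (nm b x) + d) :
    ∃ C : ℝ, ∀ n : ℕ, |average p N φ n - (n : ℝ) / 2| ≤ C := by
  classical
  obtain ⟨K, hK1, hK⟩ := exists_mul_bound b
  have hN := hG.two_le
  have hN1 : (1 : ℝ) < N := by exact_mod_cast (by omega : 1 < N)
  have hN0 : (0 : ℝ) < N := by linarith
  have hlN : 0 < Real.log N := Real.log_pos hN1
  have hd' : (1 : ℝ) ≤ d := by exact_mod_cast hd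
  set A : ℕ := (3 * (2 * K + 3)) ^ d with hA
  set B : ℕ := 2 * d * N * (2 * d + 1) ^ (2 * d - 1) with hB
  have hA1 : 1 ≤ A := Nat.one_le_pow _ _ (by omega)
  have hB1 : 1 ≤ B := by
    rw [hB]
    exact Nat.mul_pos (Nat.mul_pos (by omega) (by omega)) (Nat.pow_pos (by omega))
  have hA' : (1 : ℝ) ≤ A := by exact_mod_cast hA1
  have hB' : (1 : ℝ) ≤ B := by exact_mod_cast hB1
  have hφ0 : ∀ x, 0 ≤ φ x := fun x =>
    le_trans (mul_nonneg (by positivity) (logb_nonneg' hN _)) (h1 x)
  have hmono : ∀ k l : ℕ, k ≤ l → Real.logb N k ≤ Real.logb N l := by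
    intro k l hkl
    rcases Nat.eq_zero_or_pos k with h | h
    · subst h
      simpa using logb_nonneg' hN l
    · exact Real.logb_le_logb_of_le hN1 (by exact_mod_cast h) (by exact_mod_cast hkl)
  refine ⟨d + d * (Real.log B + 1 + Real.log A) / Real.log N, fun n => ?_⟩
  -- the sum of the logarithms
  have hsum := NA.sum_log_ge (univ : Finset (Fin n → Fin N)) (sh b p N n) A (2 * d) hA1
    (fun w _ => sh_pos b hG n w) (fun X hX => card_short b hG K hK n X hX) (by omega)
  have hc : (univ : Finset (Fin n → Fin N)).card = N ^ n := by simp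
  rw [hc] at hsum
  push_cast at hsum
  rw [Real.log_pow] at hsum
  set T : ℝ := ∑ w : Fin n → Fin N, Real.log (sh b p N n w) with hT
  have hP : (0 : ℝ) < (N : ℝ) ^ n := by positivity
  have hconst : ∀ c : ℝ, ∑ _w : Fin n → Fin N, c = (N : ℝ) ^ n * c := by
    intro c
    rw [sum_const, card_univ, nsmul_eq_mul]
    simp
  have hlower : ∀ w : Fin n → Fin N,
      d * (Real.log (sh b p N n w) / Real.log N) ≤ complexity p N φ n w := by
    intro w
    apply le_complexity hG
    rintro f g ⟨h, hh⟩ hdv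
    have hg0 : g ≠ 0 := by
      rintro rfl
      have h3 : p ∣ ((1 : ℤ) : R) := by
        have e : ((1 : ℤ) : R) = -(0 * h - 1) := by simp
        rw [e, dvd_neg]; exact hh
      rw [hG.dvd_iff] at h3
      have := Int.le_of_dvd one_pos h3
      omega
    have h3 : sh b p N n w ≤ max (nm b f) (nm b g) :=
      sh_le b n w f g _ (Or.inr hg0) hdv (le_max_left _ _) (le_max_right _ _)
    have h4 := hmono _ _ h3
    have h5 : (d : ℝ) * Real.logb N ((max (nm b f) (nm b g) : ℕ) : ℝ) ≤ max (φ f) (φ g) := by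
      rcases max_choice (nm b f) (nm b g) with h | h
      · rw [h]; exact (h1 f).trans (le_max_left _ _)
      · rw [h]; exact (h1 g).trans (le_max_right _ _)
    exact le_trans (mul_le_mul_of_nonneg_left h4 (by positivity)) h5
  have hupper : ∀ w : Fin n → Fin N, complexity p N φ n w ≤
      d * ((Real.log B + n * Real.log N - (2 * d - 1) * Real.log (sh b p N n w)) / Real.log N) +
        d := by
    intro w
    obtain ⟨f, g, hg, hdv, hle⟩ := exists_good b hG hd n w
    have h3 := complexity_le hG φ hφ0 n w f g hg hdv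
    have hs1 : 1 ≤ sh b p N n w := sh_pos b hG n w
    have hm1 : 1 ≤ max (nm b f) (nm b g) := by
      by_contra hcon
      have h4 : nm b f = 0 ∧ nm b g = 0 := by
        have h5 : max (nm b f) (nm b g) = 0 := by omega
        have h6 := le_max_left (nm b f) (nm b g)
        have h7 := le_max_right (nm b f) (nm b g)
        omega
      obtain ⟨h, hh⟩ := hg
      rw [nm_eq_zero b h4.2] at hh
      have h3 : p ∣ ((1 : ℤ) : R) := by
        have e : ((1 : ℤ) : R) = -(0 * h - 1) := by simp
        rw [e, dvd_neg]; exact hh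
      rw [hG.dvd_iff] at h3
      have := Int.le_of_dvd one_pos h3
      omega
    set m : ℕ := max (nm b f) (nm b g) with hm
    have hs1' : (1 : ℝ) ≤ sh b p N n w := by exact_mod_cast hs1
    have hm1' : (1 : ℝ) ≤ m := by exact_mod_cast hm1
    have h4 : (m : ℝ) * (sh b p N n w : ℝ) ^ (2 * d - 1) ≤ B * (N : ℝ) ^ n := by exact_mod_cast hle
    have h5 : Real.log m + (2 * d - 1) * Real.log (sh b p N n w) ≤
        Real.log B + n * Real.log N := by
      have h6 := Real.log_le_log (by positivity) h4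
      rw [Real.log_mul (by positivity) (by positivity), Real.log_pow,
        Real.log_mul (by positivity) (by positivity), Real.log_pow] at h6
      have e : ((2 * d - 1 : ℕ) : ℝ) = 2 * d - 1 := by
        rw [Nat.cast_sub (by omega)]; push_cast; ring
      rw [e] at h6
      exact h6
    have h6 : max (φ f) (φ g) ≤ d * Real.logb N m + d := by
      have hf := hmono _ _ (le_max_left (nm b f) (nm b g))
      have hg' := hmono _ _ (le_max_right (nm b f) (nm b g))
      apply max_le
      · refine (h2 f).trans ?_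
        gcongr
      · refine (h2 g).trans ?_
        gcongr
    refine h3.trans (h6.trans ?_)
    rw [Real.logb]
    gcongr
    linarith
  have hS1 : ∑ w : Fin n → Fin N, d * (Real.log (sh b p N n w) / Real.log N) ≤
      ∑ w : Fin n → Fin N, complexity p N φ n w := sum_le_sum fun w _ => hlower w
  have hS2 : ∑ w : Fin n → Fin N, complexity p N φ n w ≤
      ∑ w : Fin n → Fin N, (d * ((Real.log B + n * Real.log N -
        (2 * d - 1) * Real.log (sh b p N n w)) / Real.log N) + d) := sum_le_sum fun w _ => hupper w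
  rw [← mul_sum, ← sum_div, ← hT] at hS1
  rw [sum_add_distrib, ← mul_sum, ← sum_div, sum_sub_distrib, ← mul_sum, ← hT, hconst, hconst] at hS2
  set E : ℝ := ∑ w : Fin n → Fin N, complexity p N φ n w with hE
  have hav : average p N φ n = E / (N : ℝ) ^ n := rfl
  -- rewrite in terms of averages
  set τ : ℝ := T / (N : ℝ) ^ n with hτ
  have hT' : T = τ * (N : ℝ) ^ n := by rw [hτ]; field_simp
  have hsum' : n * Real.log N - 1 - Real.log A ≤ 2 * d * τ := by
    have : (N : ℝ) ^ n * (n * Real.log N - 1 - Real.log A) ≤ (N : ℝ) ^ n * (2 * d * τ) := by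
      rw [hT'] at hsum; linarith
    exact le_of_mul_le_mul_left this hP
  have hlow : d * (τ / Real.log N) ≤ E / (N : ℝ) ^ n := by
    rw [le_div_iff₀ hP]
    refine le_trans (le_of_eq ?_) hS1
    rw [hT']; ring
  have hupp : E / (N : ℝ) ^ n ≤
      d * ((Real.log B + n * Real.log N - (2 * d - 1) * τ) / Real.log N) + d := by
    rw [div_le_iff₀ hP]
    refine hS2.trans (le_of_eq ?_)
    rw [hT']; field_simp
  rw [hav, abs_le]
  have hlA : 0 ≤ Real.log A := Real.log_nonneg hA'
  have hlB : 0 ≤ Real.log B := Real.log_nonneg hB'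
  constructor
  · have h3 : (n : ℝ) / 2 - (1 + Real.log A) / (2 * Real.log N) ≤ d * (τ / Real.log N) := by
      have e : (n : ℝ) / 2 - (1 + Real.log A) / (2 * Real.log N) =
          (n * Real.log N - 1 - Real.log A) / 2 / Real.log N := by field_simp; ring
      have e2 : d * (τ / Real.log N) = (2 * d * τ) / 2 / Real.log N := by field_simp
      rw [e, e2]
      gcongr
    have h4 : (1 + Real.log A) / (2 * Real.log N) ≤
        d + d * (Real.log B + 1 + Real.log A) / Real.log N := by
      have h5 : (1 + Real.log A) / (2 * Real.log N) ≤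
          d * (Real.log B + 1 + Real.log A) / Real.log N := by
        rw [div_le_div_iff₀ (by positivity) hlN]
        have h6 : (1 + Real.log A) ≤ d * (Real.log B + 1 + Real.log A) * 2 := by nlinarith
        nlinarith
      linarith
    linarith
  · have h3 : d * ((Real.log B + n * Real.log N - (2 * d - 1) * τ) / Real.log N) + d ≤
        (n : ℝ) / 2 + (d + d * (Real.log B + 1 + Real.log A) / Real.log N) := by
      have h4 : (2 * d - 1) * (n * Real.log N - 1 - Real.log A) ≤ (2 * d - 1) * (2 * d * τ) :=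
        mul_le_mul_of_nonneg_left hsum' (by linarith)
      have h5 : d * (Real.log B + n * Real.log N - (2 * d - 1) * τ) ≤
          (n : ℝ) / 2 * Real.log N + d * (Real.log B + 1 + Real.log A) := by nlinarith
      calc d * ((Real.log B + n * Real.log N - (2 * d - 1) * τ) / Real.log N) + d =
            (d * (Real.log B + n * Real.log N - (2 * d - 1) * τ)) / Real.log N + d := by ring
        _ ≤ ((n : ℝ) / 2 * Real.log N + d * (Real.log B + 1 + Real.log A)) / Real.log N + d := by
            gcongr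
        _ = _ := by field_simp; ring
    linarith

/-- case (i) -/
theorem caseI (b : Module.Basis (Fin 2) ℤ R) (hN : 2 ≤ N) (hb : ∀ i : Fin 2, b i = p ^ (i : ℕ))
    (hp : p ^ 2 = -(N : R)) :
    ∃ C : ℝ, ∀ n : ℕ, |average p N (sizeI N b) n - (n : ℝ) / 2| ≤ C := by
  have hG : Good p N := good_of_basis b p N hN (by norm_num) hb (-(N : ℤ)) (by simp)
    (by rw [hp]; push_cast; rfl)
  have hN1 : (1 : ℝ) < N := by exact_mod_cast (by omega : 1 < N)
  refine main_bound b hG (by norm_num) _ ?_ ?_
  · intro x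
    unfold sizeI
    rcases Nat.eq_zero_or_pos (nm b x) with h0 | h0
    · rw [h0, nm_eq_zero b h0]; simp
    have h0' : (0 : ℝ) < nm b x := by exact_mod_cast h0
    have h3 : ((nm b x : ℕ) : ℝ) ^ 2 ≤ (b.repr x 0 : ℝ) ^ 2 + N * (b.repr x 1 : ℝ) ^ 2 := by
      have h4 : nm b x ≤ (b.repr x 0).natAbs ∨ nm b x ≤ (b.repr x 1).natAbs := by
        by_contra hcon
        push Not at hcon
        have : nm b x ≤ nm b x - 1 := by
          apply nm_le
          intro i
          fin_cases i
          · have := hcon.1; simp only [Fin.mk_zero] at this ⊢; omega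
          · have := hcon.2; simp only [Fin.mk_one] at this ⊢; omega
        omega
      have e : ∀ k : ℤ, ((k.natAbs : ℕ) : ℝ) ^ 2 = (k : ℝ) ^ 2 := by
        intro k
        rw [Nat.cast_natAbs, Int.cast_abs, sq_abs]
      rcases h4 with h4 | h4
      · have h5 : ((nm b x : ℕ) : ℝ) ^ 2 ≤ (((b.repr x 0).natAbs : ℕ) : ℝ) ^ 2 := by
          have : ((nm b x : ℕ) : ℝ) ≤ (((b.repr x 0).natAbs : ℕ) : ℝ) := by exact_mod_cast h4
          gcongr
        rw [e] at h5
        nlinarith [sq_nonneg (b.repr x 1 : ℝ)]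
      · have h5 : ((nm b x : ℕ) : ℝ) ^ 2 ≤ (((b.repr x 1).natAbs : ℕ) : ℝ) ^ 2 := by
          have : ((nm b x : ℕ) : ℝ) ≤ (((b.repr x 1).natAbs : ℕ) : ℝ) := by exact_mod_cast h4
          gcongr
        rw [e] at h5
        nlinarith [sq_nonneg (b.repr x 1 : ℝ), sq_nonneg (b.repr x 0 : ℝ)]
    have h4 := Real.logb_le_logb_of_le hN1 (by positivity) h3
    rw [Real.logb_pow] at h4
    exact_mod_cast h4
  · intro x
    unfold sizeI
    rcases Nat.eq_zero_or_pos (nm b x) with h0 | h0
    · rw [h0, nm_eq_zero b h0]; simp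
    have h0' : (0 : ℝ) < nm b x := by exact_mod_cast h0
    have h3 : ∀ i, (b.repr x i : ℝ) ^ 2 ≤ (nm b x : ℝ) ^ 2 := by
      intro i
      have h4 : (((b.repr x i).natAbs : ℕ) : ℝ) ≤ nm b x := by exact_mod_cast le_nm b x i
      rw [Nat.cast_natAbs, Int.cast_abs] at h4
      rw [← sq_abs]
      gcongr
    have h5 : (b.repr x 0 : ℝ) ^ 2 + N * (b.repr x 1 : ℝ) ^ 2 ≤ (N : ℝ) ^ 2 * (nm b x : ℝ) ^ 2 := by
      have h6 := h3 0
      have h7 := h3 1
      have hN2 : (2 : ℝ) ≤ N := by exact_mod_cast hN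
      have h8 : (1 + N : ℝ) ≤ (N : ℝ) ^ 2 := by nlinarith
      calc (b.repr x 0 : ℝ) ^ 2 + N * (b.repr x 1 : ℝ) ^ 2 ≤
            (nm b x : ℝ) ^ 2 + N * (nm b x : ℝ) ^ 2 := by gcongr
        _ = (1 + N) * (nm b x : ℝ) ^ 2 := by ring
        _ ≤ _ := by gcongr
    by_cases hz : (b.repr x 0 : ℝ) ^ 2 + N * (b.repr x 1 : ℝ) ^ 2 = 0
    · rw [hz, Real.logb_zero]
      have := logb_nonneg' hN (nm b x)
      push_cast
      linarith
    have hpos : 0 < (b.repr x 0 : ℝ) ^ 2 + N * (b.repr x 1 : ℝ) ^ 2 :=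
      lt_of_le_of_ne (by positivity) (Ne.symm hz)
    have h6 := Real.logb_le_logb_of_le hN1 hpos h5
    rw [Real.logb_mul (by positivity) (by positivity), Real.logb_pow, Real.logb_pow,
      Real.logb_self_eq_one hN1] at h6
    push_cast at h6 ⊢
    linarith

/-- case (ii) -/
theorem caseII (hN : 2 ≤ N) (hd : 1 ≤ d) (hb : ∀ i : Fin d, b i = p ^ (i : ℕ))
    (hp : p ^ d = (N : R)) :
    ∃ C : ℝ, ∀ n : ℕ, |average p N (sizeII N b) n - (n : ℝ) / 2| ≤ C := by
  have hG : Good p N := good_of_basis b p N hN hd hb (N : ℤ) (by simp) (by rw [hp]; simp)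
  have hN1 : (1 : ℝ) < N := by exact_mod_cast (by omega : 1 < N)
  have hcoord : ∀ x (i : Fin d), b.repr x i ≠ 0 →
      (d : ℝ) * Real.logb N |(b.repr x i : ℝ)| + i ≤ d * Real.logb N (nm b x) + d := by
    intro x i hi
    have h4 : (((b.repr x i).natAbs : ℕ) : ℝ) ≤ nm b x := by exact_mod_cast le_nm b x i
    rw [Nat.cast_natAbs, Int.cast_abs] at h4
    have h5 : 0 < |(b.repr x i : ℝ)| := abs_pos.mpr (by exact_mod_cast hi)
    have h6 := Real.logb_le_logb_of_le hN1 h5 h4
    have h7 : ((i : ℕ) : ℝ) ≤ d := by exact_mod_cast i.isLt.le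
    gcongr
  refine main_bound b hG hd _ ?_ ?_
  · intro x
    unfold sizeII
    rcases Nat.eq_zero_or_pos (nm b x) with h0 | h0
    · rw [h0, nm_eq_zero b h0]; simp
    obtain ⟨i, hi⟩ : ∃ i, (b.repr x i).natAbs = nm b x := by
      by_contra hcon
      push Not at hcon
      have : nm b x ≤ nm b x - 1 := by
        apply nm_le
        intro i
        have h3 := hcon i
        have h4 := le_nm b x i
        omega
      omega
    have hi0 : b.repr x i ≠ 0 := by
      intro h; rw [h] at hi; simp at hi; omega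
    refine le_trans ?_ (le_csSup ?_ ⟨i, hi0, rfl⟩)
    · rw [← hi, Nat.cast_natAbs, Int.cast_abs]
      have : (0 : ℝ) ≤ (i : ℕ) := by positivity
      linarith
    · refine ⟨d * Real.logb N (nm b x) + d, ?_⟩
      rintro y ⟨j, hj, rfl⟩
      exact hcoord x j hj
  · intro x
    unfold sizeII
    rcases Nat.eq_zero_or_pos (nm b x) with h0 | h0
    · rw [h0, nm_eq_zero b h0]; simp
    obtain ⟨i, hi⟩ : ∃ i, (b.repr x i) ≠ 0 := by
      by_contra hcon
      push Not at hcon
      have : nm b x ≤ 0 := by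
        apply nm_le
        intro i
        rw [hcon i]; simp
      omega
    refine csSup_le ⟨_, i, hi, rfl⟩ ?_
    rintro y ⟨j, hj, rfl⟩
    exact hcoord x j hj

end Pool.Agent.N590.PA
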